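import Pool.Agent.H12.KTH.Stmts

/-!
# KTH: small tools for the rows of section 5
-/

set_option autoImplicit false

namespace Pool.KTH.T48

open Finset Real
open Pool.Agent.H49.Ent Pool.Agent.H32.Dense
open Pool.Agent.H24.KTH (dsv lvv lev cap Yf kp LevOne LevPlus LevZero)

variable {d J : ℕ}

/-- The error terms are small. -/
lemma er_small (C : ℝ) (hC : 0 ≤ C) (ε : ℝ) (hε : 0 < ε) :
    ∃ θ : ℝ, 0 < θ ∧ ∃ J₀ : ℕ, ∀ J : ℕ, J₀ ≤ J → ∀ e : ℝ, e ≤ θ * lm J →
      C * er J e ≤ ε * lm J := by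
  have hl2 : 0 < Real.log 2 := Real.log_pos (by norm_num)
  refine ⟨ε / (2 * (C + 1)), by positivity, ?_⟩
  have h1 : Filter.Tendsto (fun J : ℕ => (C * (1 + Real.log ((J : ℝ) + 2))) / ((J : ℝ) + 2))
      Filter.atTop (nhds 0) := by
    have a1 : Filter.Tendsto (fun x : ℝ => (C * (1 + Real.log x)) / x) Filter.atTop (nhds 0) := by
      have b1 : Filter.Tendsto (fun x : ℝ => C * x⁻¹ + C * (Real.log x / x)) Filter.atTop
          (nhds (C * 0 + C * 0)) := by
        refine Filter.Tendsto.add ?_ ?_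
        · exact tendsto_inv_atTop_zero.const_mul C
        · refine Filter.Tendsto.const_mul C ?_
          have := Real.isLittleO_log_id_atTop.tendsto_div_nhds_zero
          simpa using this
      simp only [mul_zero, add_zero] at b1
      refine b1.congr' ?_
      filter_upwards [Filter.eventually_gt_atTop (0 : ℝ)] with x hx
      field_simp
    have a2 : Filter.Tendsto (fun J : ℕ => (J : ℝ) + 2) Filter.atTop Filter.atTop :=
      Filter.tendsto_atTop_add_const_right _ _ tendsto_natCast_atTop_atTop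
    exact a1.comp a2
  have hpos : 0 < ε * Real.log 2 / 6 := by positivity
  have h2 := (h1.eventually (gt_mem_nhds hpos))
  obtain ⟨J₁, hJ₁⟩ := Filter.eventually_atTop.mp h2
  refine ⟨max J₁ 1, fun J hJ e he => ?_⟩
  have hJ1 : J₁ ≤ J := le_trans (le_max_left _ _) hJ
  have hJ2 : 1 ≤ J := le_trans (le_max_right _ _) hJ
  have h3 := hJ₁ J hJ1
  have hJr : (1 : ℝ) ≤ J := by exact_mod_cast hJ2
  have hJ0 : (0 : ℝ) < (J : ℝ) + 2 := by linarith
  rw [div_lt_iff₀ hJ0] at h3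
  have h4 : C * (1 + Real.log ((J : ℝ) + 2)) ≤ ε / 2 * lm J := by
    unfold lm
    have : ε * Real.log 2 / 6 * ((J : ℝ) + 2) ≤ ε / 2 * (J * Real.log 2) := by
      have : (J : ℝ) + 2 ≤ 3 * J := by linarith
      calc ε * Real.log 2 / 6 * ((J : ℝ) + 2) ≤ ε * Real.log 2 / 6 * (3 * J) :=
            mul_le_mul_of_nonneg_left this hpos.le
        _ = ε / 2 * (J * Real.log 2) := by ring
    linarith
  have hlm : 0 ≤ lm J := by unfold lm; positivity
  have h5 : C * e ≤ ε / 2 * lm J := by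
    calc C * e ≤ C * (ε / (2 * (C + 1)) * lm J) := mul_le_mul_of_nonneg_left he hC
      _ = (C / (C + 1)) * (ε / 2 * lm J) := by field_simp
      _ ≤ 1 * (ε / 2 * lm J) := by
          refine mul_le_mul_of_nonneg_right ?_ (by positivity)
          rw [div_le_one (by positivity)]
          linarith
      _ = ε / 2 * lm J := one_mul _
  unfold er
  calc C * (e + 1 + Real.log ((J : ℝ) + 2)) = C * e + C * (1 + Real.log ((J : ℝ) + 2)) := by ring
    _ ≤ ε * lm J := by linarith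

/-- A time has entropy at most `lm J`. -/
lemma time_le {Ω : Type} [Fintype Ω] {T : Type} {q : Ω → ℝ} (hq : ∀ w, 0 ≤ q w)
    (h1 : ∑ w, q w = 1) {τ : Ω → ℤ} (hτ : ∀ w, 0 < q w → 0 ≤ τ w ∧ τ w < ((2 ^ J : ℕ) : ℤ))
    (W : Ω → T) : CH q τ W ≤ lm J := by
  have h := CH_time_le hq h1 hτ W
  have : Real.log ((2 ^ J : ℕ) : ℝ) = lm J := by
    unfold lm
    push_cast
    rw [Real.log_pow]
  rwa [this] at h

lemma er_nonneg {J : ℕ} {e : ℝ} (he : 0 ≤ e) : 0 ≤ er J e := by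
  unfold er
  have : 0 ≤ Real.log ((J : ℝ) + 2) := Real.log_nonneg (by
    have : (0 : ℝ) ≤ J := Nat.cast_nonneg J
    linarith)
  linarith

lemma le_er {J : ℕ} {e : ℝ} (_he : 0 ≤ e) : e ≤ er J e := by
  unfold er
  have : 0 ≤ Real.log ((J : ℝ) + 2) := Real.log_nonneg (by
    have : (0 : ℝ) ≤ J := Nat.cast_nonneg J
    linarith)
  linarith

/-- FACT K for the lines 1 (given) and 0: `r` is a time of the line 0. -/
lemma fck_use (hK : FCKStmt) (hd : 1 ≤ d) (ε : ℝ) (hε : 0 < ε) :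
    ∃ θ : ℝ, 0 < θ ∧ ∃ J₀ : ℕ, ∀ J : ℕ, J₀ ≤ J → ∀ (F : Cf d J) (r : F.Ω → ℤ),
      (∀ w, 0 < F.q w → 0 ≤ r w ∧ r w < ((2 ^ J : ℕ) : ℤ)) →
      lm J - θ * lm J ≤ CH F.q r (fun w => (F.v01 w, F.t w, F.Z w)) →
      CH F.q F.v₀ (fun w => (F.v₁ w, pp J F.u₀ F.v₀ r w, F.Z w)) ≤ ε * lm J := by
  obtain ⟨θ, hθ, J₀, h⟩ := hK d hd ε hε
  refine ⟨θ, hθ, J₀, fun J hJ F r hr hc => ?_⟩
  refine h J hJ F.Ω F.ζ F.q F.Z F.v₁ F.v₀ F.u₁ F.u₀ F.t r F.hq F.h1 ?_ ?_ F.hu₁ F.hu₀ ?_ ?_ ?_ ?_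
  · intro w hw k
    have := F.hv₁ w hw k
    push_cast at this
    exact this
  · intro w hw k
    have := F.hv₀ w hw k
    push_cast at this
    exact this
  · intro w hw
    have := F.ht w hw
    push_cast at this
    exact this
  · intro w hw
    have := hr w hw
    push_cast at this
    exact this
  · intro w hw
    exact (F.cross01 w hw).symm
  · refine hc.trans (le_of_eq ?_)
    refine CH_congr F.hq ?_ ?_ ?_ ?_ <;>
    · intro w w' _ _ hh
      simp only [Prod.mk.injEq, Cf.v01] at hh ⊢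
      tauto

end Pool.KTH.T48
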