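import Pool.Agent.H24.KTH.Top

/-!
# KTH, module ONC: the cap of the crossing point, second half of (5.2)
-/

set_option autoImplicit false

namespace Pool.Agent.H24.KTH

open Finset Real
open Pool.Agent.H49.Ent Pool.Agent.H32.Dense

namespace Onc48

/-- Two integers with the same quotient by `q` differ by less than `q`. -/
lemma sub_lt_of_div {a b q : ℤ} (hq : 0 < q) (h : a / q = b / q) : |((a : ℝ) - b)| ≤ q := by
  have h1 := Int.emod_add_mul_ediv a q
  have h2 := Int.emod_add_mul_ediv b q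
  have h3 := Int.emod_nonneg a hq.ne'
  have h4 := Int.emod_lt_of_pos a hq
  have h5 := Int.emod_nonneg b hq.ne'
  have h6 := Int.emod_lt_of_pos b hq
  rw [h] at h1
  have h7 : a - b = a % q - b % q := by linarith
  have h8 : |a - b| ≤ q := by
    rw [h7, abs_le]
    constructor <;> linarith
  exact_mod_cast h8

/-- The quotients of two integers. -/
lemma div_sub_le {a b q : ℤ} (hq : 0 < q) : |(((a / q - b / q : ℤ)) : ℝ)| ≤ |(a : ℝ) - b| / q + 1 := by
  have hqr : (0 : ℝ) < q := by exact_mod_cast hq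
  have h1 : (a : ℝ) = (a % q : ℤ) + q * (a / q : ℤ) := by
    exact_mod_cast (Int.emod_add_mul_ediv a q).symm
  have h2 : (b : ℝ) = (b % q : ℤ) + q * (b / q : ℤ) := by
    exact_mod_cast (Int.emod_add_mul_ediv b q).symm
  have h3 : (0 : ℝ) ≤ ((a % q : ℤ) : ℝ) := by exact_mod_cast Int.emod_nonneg a hq.ne'
  have h4 : ((a % q : ℤ) : ℝ) < q := by exact_mod_cast Int.emod_lt_of_pos a hq
  have h5 : (0 : ℝ) ≤ ((b % q : ℤ) : ℝ) := by exact_mod_cast Int.emod_nonneg b hq.ne'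
  have h6 : ((b % q : ℤ) : ℝ) < q := by exact_mod_cast Int.emod_lt_of_pos b hq
  have h7 : (((a / q - b / q : ℤ)) : ℝ) = ((a : ℝ) - b) / q - (((a % q : ℤ) : ℝ) - ((b % q : ℤ) : ℝ)) / q := by
    push_cast
    rw [h1, h2]
    field_simp
    ring
  rw [h7]
  have h8 : |(((a % q : ℤ) : ℝ) - ((b % q : ℤ) : ℝ)) / q| ≤ 1 := by
    rw [abs_div, abs_of_pos hqr, div_le_one hqr, abs_le]
    constructor <;> linarith
  calc |((a : ℝ) - b) / q - (((a % q : ℤ) : ℝ) - ((b % q : ℤ) : ℝ)) / q| ≤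
      |((a : ℝ) - b) / q| + |(((a % q : ℤ) : ℝ) - ((b % q : ℤ) : ℝ)) / q| := abs_sub _ _
    _ ≤ |(a : ℝ) - b| / q + 1 := by
        have h9 : |((a : ℝ) - b) / q| = |(a : ℝ) - b| / q := by rw [abs_div, abs_of_pos hqr]
        rw [h9]
        linarith

lemma floor_sub_le (x y : ℝ) : |((⌊x⌋ : ℤ) : ℝ) - ((⌊y⌋ : ℤ) : ℝ)| ≤ |x - y| + 1 := by
  have h1 := Int.floor_le x
  have h2 := Int.lt_floor_add_one x
  have h3 := Int.floor_le y
  have h4 := Int.lt_floor_add_one y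
  rw [abs_le]
  have h5 := le_abs_self (x - y)
  have h6 := neg_abs_le (x - y)
  constructor <;> linarith

/-- The size of the cap of a sum. -/
lemma cap_bound {M q c c' V V' P P' X e e' : ℝ} (hM : 0 < M) (hq1 : 1 ≤ q) (hqM : q ≤ M)
    (hc : |c - c'| ≤ q) (hV : |V - V'| ≤ q) (hV' : |V'| ≤ M) (he : |e| ≤ 2) (he' : |e'| ≤ 2)
    (h : X = P + c / M * V + e) (h' : X = P' + c' / M * V' + e') :
    |P - P'| ≤ q * (1 + |c| / M) + 4 := by
  have h1 : P - P' = -(c / M * (V - V')) - (c - c') / M * V' - (e - e') := by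
    have : P = X - c / M * V - e := by linarith
    have h2 : P' = X - c' / M * V' - e' := by linarith
    rw [this, h2]
    ring
  rw [h1]
  have a1 : |c / M * (V - V')| ≤ |c| / M * q := by
    rw [abs_mul, abs_div, abs_of_pos hM]
    exact mul_le_mul_of_nonneg_left hV (by positivity)
  have a2 : |(c - c') / M * V'| ≤ q := by
    rw [abs_mul, abs_div, abs_of_pos hM]
    calc |c - c'| / M * |V'| ≤ q / M * M := by
          refine mul_le_mul ?_ hV' (abs_nonneg _) (by positivity)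
          exact div_le_div_of_nonneg_right hc hM.le
      _ = q := by field_simp
  have a3 : |e - e'| ≤ 4 := by
    calc |e - e'| ≤ |e| + |e'| := abs_sub _ _
      _ ≤ 4 := by linarith
  calc |-(c / M * (V - V')) - (c - c') / M * V' - (e - e')| ≤
      |-(c / M * (V - V')) - (c - c') / M * V'| + |e - e'| := abs_sub _ _
    _ ≤ |-(c / M * (V - V'))| + |(c - c') / M * V'| + |e - e'| := by
        gcongr
        exact abs_sub _ _
    _ ≤ |c| / M * q + q + 4 := by rw [abs_neg]; linarith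
    _ = q * (1 + |c| / M) + 4 := by ring

end Onc48

open Onc48

/-- (ONC) -/
theorem onc : ONCStmt := by
  intro d N hN
  refine ⟨3 * d + Real.log (N + 1), ?_⟩
  intro J Ω _ ζ p Z v v' u s c X w G hF hv' hw hX hG
  have hp := hF.hp
  have h1 := hF.h1
  set a : Ω → Fin d → ℤ := fun ω => cap J (lev J N (w ω)) (rd (pos (2 ^ J) (u ω) (v ω) (s ω)))
    with ha
  set b : Ω → ℤ := fun ω => s ω / 2 ^ (J - lev J N (w ω)) with hb
  set β : Ω → Fin d → ℤ := fun ω => cap J (lev J N (w ω)) (v' ω) with hβ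
  set O : Ω → ℤ × (Fin d → ℤ) := fun ω => (s ω + c ω, X ω) with hO
  set Q : Ω → ℤ × (Fin d → ℤ) := fun ω => (s ω, rd (pos (2 ^ J) (u ω) (v ω) (s ω))) with hQ
  -- the number of levels
  have hw' : ∀ {T : Type} (W : Ω → T), CH p w W ≤ Real.log (N + 1) := by
    intro T W
    refine (CH_le_card hp h1 w W (fun _ => Finset.range (N + 1)) ?_).trans ?_
    · intro ω _
      exact Finset.mem_range.mpr (Nat.lt_succ_of_le (hw ω))
    · rw [Finset.card_range, Ex_const h1]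
      push_cast
      exact le_rfl
  -- (4) the cap of the position
  have h4 : CH p a (fun ω => (β ω, b ω, w ω, O ω, Z ω)) ≤ d * (3 + G) := by
    refine (CH_le_vec hp h1 a _ (fun ω => |(c ω : ℝ)| / 2 ^ J + 7) ?_).trans ?_
    · intro ω ω' hω hω' hW k
      simp only [Prod.mk.injEq, hβ, hb, hO] at hW
      obtain ⟨e1, e2, e3, ⟨e4, e5⟩, e6⟩ := hW
      rw [← e3] at e1 e2
      set j := lev J N (w ω) with hj
      set q : ℤ := 2 ^ (J - j) with hq
      have hq0 : 0 < q := by positivity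
      have hq1 : (1 : ℝ) ≤ q := by exact_mod_cast hq0
      have hqM : (q : ℝ) ≤ 2 ^ J := by
        rw [hq]
        push_cast
        exact pow_le_pow_right₀ (by norm_num) (Nat.sub_le _ _)
      have hM : (0 : ℝ) < 2 ^ J := by positivity
      have b1 : |(s ω : ℝ) - s ω'| ≤ q := sub_lt_of_div hq0 e2
      have b2 : |(c ω : ℝ) - c ω'| ≤ q := by
        have : (c ω : ℝ) - c ω' = -((s ω : ℝ) - s ω') := by
          have : (s ω : ℝ) + c ω = s ω' + c ω' := by exact_mod_cast e4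
          linarith
        rw [this, abs_neg]
        exact b1
      have b3 : |(v' ω k : ℝ) - v' ω' k| ≤ q := by
        refine sub_lt_of_div hq0 ?_
        exact congrFun e1 k
      have b4 : |(v' ω' k : ℝ)| ≤ 2 ^ J := by exact_mod_cast hv' ω' hω' k
      have c1 := hX ω hω k
      have c2 := hX ω' hω' k
      have b5 := cap_bound (M := 2 ^ J) (q := q) (c := c ω) (c' := c ω') (V := v' ω k)
        (V' := v' ω' k) (P := pos (2 ^ J) (u ω) (v ω) (s ω) k)
        (P' := pos (2 ^ J) (u ω') (v ω') (s ω') k) (X := X ω k)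
        (e := (X ω k : ℝ) - (pos (2 ^ J) (u ω) (v ω) (s ω) k + (c ω : ℝ) / 2 ^ J * v' ω k))
        (e' := (X ω' k : ℝ) - (pos (2 ^ J) (u ω') (v ω') (s ω') k +
          (c ω' : ℝ) / 2 ^ J * v' ω' k)) hM hq1 hqM b2 b3 b4 c1 c2 (by ring)
        (by rw [e5]; ring)
      have b6 := floor_sub_le (pos (2 ^ J) (u ω) (v ω) (s ω) k)
        (pos (2 ^ J) (u ω') (v ω') (s ω') k)
      have b7 : |((a ω k - a ω' k : ℤ) : ℝ)| ≤
          |((⌊pos (2 ^ J) (u ω) (v ω) (s ω) k⌋ : ℤ) : ℝ) -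
            ((⌊pos (2 ^ J) (u ω') (v ω') (s ω') k⌋ : ℤ) : ℝ)| / q + 1 := by
        have : a ω k - a ω' k = ⌊pos (2 ^ J) (u ω) (v ω) (s ω) k⌋ / q -
            ⌊pos (2 ^ J) (u ω') (v ω') (s ω') k⌋ / q := by
          simp only [ha, cap, rd, ← e3, ← hj, hq]
        rw [this]
        exact div_sub_le hq0
      refine b7.trans ?_
      have b8 : |((⌊pos (2 ^ J) (u ω) (v ω) (s ω) k⌋ : ℤ) : ℝ) -
            ((⌊pos (2 ^ J) (u ω') (v ω') (s ω') k⌋ : ℤ) : ℝ)| ≤
          q * (1 + |(c ω : ℝ)| / 2 ^ J) + 5 := by linarith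
      have hq0' : (0 : ℝ) < q := by linarith
      calc |((⌊pos (2 ^ J) (u ω) (v ω) (s ω) k⌋ : ℤ) : ℝ) -
            ((⌊pos (2 ^ J) (u ω') (v ω') (s ω') k⌋ : ℤ) : ℝ)| / q + 1 ≤
          (q * (1 + |(c ω : ℝ)| / 2 ^ J) + 5) / q + 1 := by gcongr
        _ = (1 + |(c ω : ℝ)| / 2 ^ J) + 5 / q + 1 := by
            field_simp
        _ ≤ |(c ω : ℝ)| / 2 ^ J + 7 := by
            have : 5 / (q : ℝ) ≤ 5 := div_le_self (by norm_num) hq1
            linarith
    · refine mul_le_mul_of_nonneg_left ?_ (by positivity)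
      calc Ex p (fun ω => Real.log (2 * (|(c ω : ℝ)| / 2 ^ J + 7) + 1)) ≤
          Ex p (fun ω => 3 + Real.log (1 + |(c ω : ℝ)| / 2 ^ J)) := by
            refine Ex_mono hp fun ω _ => ?_
            have hx : (0 : ℝ) ≤ |(c ω : ℝ)| / 2 ^ J := by positivity
            have hl : Real.log 15 ≤ (3 : ℕ) := log_le_of_pow (by norm_num) (by norm_num)
            push_cast at hl
            calc Real.log (2 * (|(c ω : ℝ)| / 2 ^ J + 7) + 1) ≤
                Real.log (15 * (1 + |(c ω : ℝ)| / 2 ^ J)) :=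
                  Real.log_le_log (by positivity) (by linarith)
              _ = Real.log 15 + Real.log (1 + |(c ω : ℝ)| / 2 ^ J) :=
                  Real.log_mul (by norm_num) (by positivity)
              _ ≤ _ := by linarith
        _ = 3 + Ex p (fun ω => Real.log (1 + |(c ω : ℝ)| / 2 ^ J)) := by
            rw [Ex_add, Ex_const h1]
        _ ≤ 3 + G := by linarith
  have hG0 : 0 ≤ G := by
    refine le_trans (Ex_nonneg hp fun ω _ => Real.log_nonneg ?_) hG
    have : (0 : ℝ) ≤ |(c ω : ℝ)| / 2 ^ J := by positivity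
    linarith
  -- (1)
  have s1 : CH p (fun ω => (a ω, b ω)) (fun ω => (w ω, Z ω)) =
      CH p b (fun ω => (w ω, Z ω)) + CH p a (fun ω => (b ω, w ω, Z ω)) := CH_chain hp _ _ _
  -- (3)
  have s3 : CH p (fun ω => (a ω, b ω)) (fun ω => (w ω, O ω, Z ω)) =
      CH p b (fun ω => (w ω, O ω, Z ω)) + CH p a (fun ω => (b ω, w ω, O ω, Z ω)) :=
    CH_chain hp _ _ _
  have s3' : CH p b (fun ω => (w ω, O ω, Z ω)) ≤ CH p b (fun ω => (w ω, Z ω)) := by
    refine CH_mono_cond hp ?_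
    intro ω ω' _ _ h
    simp only [Prod.mk.injEq] at h ⊢
    exact ⟨h.1, h.2.2⟩
  have s4 : CH p a (fun ω => (b ω, w ω, O ω, Z ω)) ≤
      CH p β (fun ω => (b ω, w ω, O ω, Z ω)) + CH p a (fun ω => (β ω, b ω, w ω, O ω, Z ω)) :=
    CH_le_add hp _ _ _
  have s5 : CH p β (fun ω => (b ω, w ω, O ω, Z ω)) ≤ CH p β (fun ω => (w ω, O ω, Z ω)) := by
    refine CH_mono_cond hp ?_
    intro ω ω' _ _ h
    simp only [Prod.mk.injEq] at h ⊢
    exact h.2
  -- (2) the mutual information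
  have i1 : CH p (fun ω => ((a ω, b ω), O ω)) (fun ω => (w ω, Z ω)) =
      CH p O (fun ω => (w ω, Z ω)) + CH p (fun ω => (a ω, b ω)) (fun ω => (O ω, w ω, Z ω)) :=
    CH_chain hp _ _ _
  have i2 : CH p (fun ω => (O ω, (a ω, b ω))) (fun ω => (w ω, Z ω)) =
      CH p (fun ω => (a ω, b ω)) (fun ω => (w ω, Z ω)) +
        CH p O (fun ω => ((a ω, b ω), w ω, Z ω)) := CH_chain hp _ _ _
  have i3 : CH p (fun ω => ((a ω, b ω), O ω)) (fun ω => (w ω, Z ω)) =
      CH p (fun ω => (O ω, (a ω, b ω))) (fun ω => (w ω, Z ω)) := by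
    refine CH_congr hp ?_ ?_ (fun _ _ _ _ h => h) (fun _ _ _ _ h => h) <;>
    · intro ω ω' _ _ h
      simp only [Prod.mk.injEq] at h ⊢
      tauto
  have i4 : CH p (fun ω => (a ω, b ω)) (fun ω => (O ω, w ω, Z ω)) =
      CH p (fun ω => (a ω, b ω)) (fun ω => (w ω, O ω, Z ω)) := by
    refine CH_congr hp ?_ ?_ ?_ ?_ <;>
    · intro ω ω' _ _ h
      simp only [Prod.mk.injEq] at h ⊢
      tauto
  have i5 : CH p O (fun ω => (Q ω, w ω, Z ω)) ≤ CH p O (fun ω => ((a ω, b ω), w ω, Z ω)) := by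
    refine CH_mono_cond hp ?_
    intro ω ω' _ _ h
    simp only [Prod.mk.injEq, hQ] at h
    obtain ⟨⟨e1, e2⟩, e3, e4⟩ := h
    simp only [Prod.mk.injEq, ha, hb]
    rw [e2, e3, e1]
    exact ⟨⟨rfl, rfl⟩, rfl, e4⟩
  have i6 : CH p O (fun ω => (Q ω, Z ω)) ≤ CH p w (fun ω => (Q ω, Z ω)) +
      CH p O (fun ω => (w ω, Q ω, Z ω)) := CH_le_add hp _ _ _
  have i7 : CH p O (fun ω => (w ω, Q ω, Z ω)) = CH p O (fun ω => (Q ω, w ω, Z ω)) := by
    refine CH_congr hp ?_ ?_ ?_ ?_ <;>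
    · intro ω ω' _ _ h
      simp only [Prod.mk.injEq] at h ⊢
      tauto
  have i8 : CH p (fun ω => (O ω, Q ω)) Z = CH p Q Z + CH p O (fun ω => (Q ω, Z ω)) :=
    CH_chain hp _ _ _
  have i9 : CH p (fun ω => (O ω, Q ω)) Z = CH p (fun ω => (Q ω, O ω)) Z := by
    refine CH_congr hp ?_ ?_ (fun _ _ _ _ h => h) (fun _ _ _ _ h => h) <;>
    · intro ω ω' _ _ h
      simp only [Prod.mk.injEq] at h ⊢
      tauto
  have i10 : CH p O (fun ω => (w ω, Z ω)) ≤ CH p O Z := by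
    refine CH_mono_cond hp ?_
    intro ω ω' _ _ h
    exact (Prod.ext_iff.mp h).2
  have hw1 := hw' (fun ω => (Q ω, Z ω))
  have hd0 : (0 : ℝ) ≤ d := Nat.cast_nonneg d
  have hl0 : 0 ≤ Real.log ((N : ℝ) + 1) := Real.log_nonneg (by
    have : (0 : ℝ) ≤ N := Nat.cast_nonneg N
    linarith)
  have hfin : d * (3 + G) + Real.log ((N : ℝ) + 1) ≤
      (3 * d + Real.log ((N : ℝ) + 1)) * (G + 1) := by
    nlinarith [mul_nonneg hd0 hG0, mul_nonneg hl0 hG0]
  change CH p a (fun ω => (b ω, w ω, Z ω)) ≤ CH p β (fun ω => (w ω, O ω, Z ω)) +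
    (CH p Q Z + CH p O Z - CH p (fun ω => (Q ω, O ω)) Z) +
      (3 * d + Real.log ((N : ℝ) + 1)) * (G + 1)
  linarith

end Pool.Agent.H24.KTH
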