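import Pool.Agent.H48.KTH.Tools

/-!
# KTH, row ACO
-/

set_option autoImplicit false

namespace Pool.KTH

open Finset Real
open Pool.Agent.H49.Ent Pool.Agent.H32.Dense
open Pool.Agent.H24.KTH (dsv lvv lev cap Yf kp LevOne LevPlus LevZero)
open T48

/-- ACO: `H(C, O)` and `I(C; O)`. -/
theorem aco (hDIR : DIRStmt) (hTLN : TLNStmt) (hFCK : FCKStmt) (hUFC : UFCStmt) : ACOStmt := by
  intro d hd ε hε
  obtain ⟨C₁, hC₁, hD⟩ := (hDIR d).1
  obtain ⟨C₂, hC₂, hT⟩ := (hTLN d hd).1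
  obtain ⟨C₃, hC₃, hU⟩ := (hUFC d).2.1
  obtain ⟨θ₁, hθ₁, J₁, h1⟩ := er_small (C₁ + C₂ + C₃ + 1) (by positivity) (ε / 2) (by positivity)
  obtain ⟨θ₂, hθ₂, J₂, h2⟩ := fck_use hFCK hd (ε / 2) (by positivity)
  refine ⟨min θ₁ θ₂, lt_min hθ₁ hθ₂, max J₁ J₂, ?_⟩
  intro J hJ F L sb e he hOk
  have hJ1 : J₁ ≤ J := (le_max_left _ _).trans hJ
  have hJ2 : J₂ ≤ J := (le_max_right _ _).trans hJ
  have hlm : 0 ≤ lm J := by unfold lm; positivity
  have he1 : e ≤ θ₁ * lm J := he.trans (mul_le_mul_of_nonneg_right (min_le_left _ _) hlm)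
  have he2 : e ≤ θ₂ * lm J := he.trans (mul_le_mul_of_nonneg_right (min_le_right _ _) hlm)
  have herr := h1 J hJ1 e he1
  have hq := F.hq
  have hD' := hD J F L sb e hOk
  have hT' := hT J F L sb e hOk
  have hU' := hU J F L sb e hOk
  have hcs := hOk.cs
  have hee := le_er (J := J) hOk.e0
  -- FACT K
  have hK := h2 J hJ2 F F.s F.hs (by
    refine le_trans (by linarith) (hcs.trans (le_of_eq ?_))
    rfl)
  -- `H(c | v01, t, s)`
  have a1 : CH F.q (fun w => (F.s w, F.c w)) (fun w => (F.v01 w, F.t w, F.Z w)) =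
      CH F.q (fun w => (F.c w, F.s w)) (fun w => (F.v01 w, F.t w, F.Z w)) := by
    refine CH_congr hq ?_ ?_ (fun _ _ _ _ h => h) (fun _ _ _ _ h => h) <;>
    · intro w w' _ _ hh
      simp only [Prod.mk.injEq] at hh ⊢
      tauto
  have a2 : CH F.q (fun w => (F.c w, F.s w)) (fun w => (F.v01 w, F.t w, F.Z w)) =
      CH F.q F.s (fun w => (F.v01 w, F.t w, F.Z w)) +
        CH F.q F.c (fun w => (F.s w, F.v01 w, F.t w, F.Z w)) := CH_chain hq _ _ _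
  have a3 : CH F.q F.s (fun w => (F.v01 w, F.t w, F.Z w)) ≤ lm J := time_le hq F.h1 F.hs _
  -- `H(c | v₁, C)`
  have a4 : CH F.q F.c (fun w => (F.s w, F.v01 w, F.t w, F.Z w)) ≤
      CH F.q F.c (fun w => (F.v₁ w, F.C w, F.Z w)) := by
    refine CH_mono_cond hq ?_
    intro w w' hw hw' hh
    simp only [Prod.mk.injEq, Cf.v01] at hh
    obtain ⟨e1, ⟨e2, e3⟩, e4, e5⟩ := hh
    have e6 : F.u₀ w = F.u₀ w' := F.hu₀ w w' hw hw' (Prod.ext e2 e5)
    simp only [Prod.mk.injEq]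
    refine ⟨e3, ?_, e5⟩
    unfold Cf.C pp
    rw [e1, e2, e6]
  -- `H(C, O) ≥ H(v₁, C) + H(c | v₁, C) - DIR`
  have b1 : CH F.q (fun w => (F.v₁ w, (F.C w, F.O w))) F.Z =
      CH F.q (fun w => (F.C w, F.O w)) F.Z +
        CH F.q F.v₁ (fun w => ((F.C w, F.O w), F.Z w)) := CH_chain hq _ _ _
  have b2 : CH F.q F.v₁ (fun w => ((F.C w, F.O w), F.Z w)) =
      CH F.q F.v₁ (fun w => (F.O w, F.C w, F.Z w)) := by
    refine CH_congr hq ?_ ?_ ?_ ?_ <;>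
    · intro w w' _ _ hh
      simp only [Prod.mk.injEq] at hh ⊢
      tauto
  have b3 : CH F.q (fun w => (F.c w, (F.v₁ w, F.C w))) F.Z =
      CH F.q (fun w => (F.v₁ w, F.C w)) F.Z +
        CH F.q F.c (fun w => ((F.v₁ w, F.C w), F.Z w)) := CH_chain hq _ _ _
  have b4 : CH F.q F.c (fun w => ((F.v₁ w, F.C w), F.Z w)) =
      CH F.q F.c (fun w => (F.v₁ w, F.C w, F.Z w)) := by
    refine CH_congr hq ?_ ?_ ?_ ?_ <;>
    · intro w w' _ _ hh
      simp only [Prod.mk.injEq] at hh ⊢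
      tauto
  have b5 : CH F.q (fun w => (F.c w, (F.v₁ w, F.C w))) F.Z ≤
      CH F.q (fun w => (F.v₁ w, (F.C w, F.O w))) F.Z := by
    refine CH_mono_left hq ?_
    intro w w' _ _ hh
    simp only [Prod.mk.injEq] at hh
    obtain ⟨⟨e1, e2, e3⟩, e4⟩ := hh
    have e5 : F.s w = F.s w' := congrArg Prod.fst e2
    have e6 : F.s w + F.c w = F.s w' + F.c w' := congrArg Prod.fst e3
    simp only [Prod.mk.injEq]
    exact ⟨by linarith, e1, e2⟩
  -- `H(v₁, C) ≥ H(v₀, v₁) + H(s | v₀, v₁) - H(v₀ | v₁, C)`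
  have c1 : CH F.q (fun w => (F.v₀ w, (F.v₁ w, F.C w))) F.Z =
      CH F.q (fun w => (F.v₁ w, F.C w)) F.Z +
        CH F.q F.v₀ (fun w => ((F.v₁ w, F.C w), F.Z w)) := CH_chain hq _ _ _
  have c2 : CH F.q F.v₀ (fun w => ((F.v₁ w, F.C w), F.Z w)) ≤ ε / 2 * lm J := by
    refine le_trans (le_of_eq ?_) hK
    refine CH_congr hq ?_ ?_ ?_ ?_ <;>
    · intro w w' _ _ hh
      simp only [Prod.mk.injEq, Cf.C] at hh ⊢
      tauto
  have c3 : CH F.q (fun w => (F.s w, F.v01 w)) F.Z =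
      CH F.q F.v01 F.Z + CH F.q F.s (fun w => (F.v01 w, F.Z w)) := CH_chain hq _ _ _
  have c4 : CH F.q (fun w => (F.s w, F.v01 w)) F.Z ≤
      CH F.q (fun w => (F.v₀ w, (F.v₁ w, F.C w))) F.Z := by
    refine CH_mono_left hq ?_
    intro w w' _ _ hh
    simp only [Prod.mk.injEq] at hh
    obtain ⟨⟨e1, e2, e3⟩, e4⟩ := hh
    have e5 : F.s w = F.s w' := congrArg Prod.fst e3
    simp only [Prod.mk.injEq, Cf.v01]
    exact ⟨e5, e1, e2⟩
  have c5 : CH F.q F.s (fun w => (F.v01 w, F.t w, F.Z w)) ≤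
      CH F.q F.s (fun w => (F.v01 w, F.Z w)) := by
    refine CH_mono_cond hq ?_
    intro w w' _ _ hh
    simp only [Prod.mk.injEq] at hh ⊢
    exact ⟨hh.1, hh.2.2⟩
  have c6 : lm J - e ≤ CH F.q F.s (fun w => (F.v01 w, F.t w, F.Z w)) := hcs
  have hsC := hOk.sC
  change F.ic - (2 * sb + F.xh - 2 * L - 4 * lm J + F.y01) ≤ ε * lm J
  have hD'' : CH F.q F.v₁ (fun w => (F.O w, F.C w, F.Z w)) ≤ C₁ * er J e := hD'
  have hT'' : 2 * L + 2 * lm J - sb - F.y01 - CH F.q F.v01 F.Z ≤ C₂ * er J e := hT'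
  have hU'' : 2 * lm J - CH F.q (fun w => (F.s w, F.c w)) (fun w => (F.v01 w, F.t w, F.Z w)) ≤
      C₃ * er J e := hU'
  have herr' : C₁ * er J e + C₂ * er J e + C₃ * er J e + er J e ≤ ε / 2 * lm J := by
    calc _ = (C₁ + C₂ + C₃ + 1) * er J e := by ring
      _ ≤ _ := herr
  unfold Cf.ic
  linarith

end Pool.KTH
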