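import Pool.Agent.H48.KTH.Tools

/-!
# KTH, row ALS
-/

set_option autoImplicit false

namespace Pool.KTH

open Finset Real
open Pool.Agent.H49.Ent Pool.Agent.H32.Dense
open Pool.Agent.H24.KTH (dsv lvv lev cap Yf kp LevOne LevPlus LevZero)
open T48

/-- ALS: slices of the family of the lines 1 given `O`. -/
theorem als (hDRV : DRVStmt) (hCHD : CHDStmt) (hUPT : UPTStmt) (hFCK : FCKStmt) (hT1L : T1LStmt)
    (hUFC : UFCStmt) : ALSStmt := by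
  intro d hd ε hε
  obtain ⟨C₁, hC₁, hR⟩ := hDRV d
  obtain ⟨C₂, hC₂, hD⟩ := (hCHD d).1
  obtain ⟨C₃, hC₃, hTO⟩ := (hUPT d).2.2.1
  obtain ⟨C₄, hC₄, hT⟩ := hT1L d hd
  obtain ⟨C₅, hC₅, hU⟩ := (hUFC d).2.2
  obtain ⟨θ₁, hθ₁, J₁, h1⟩ := er_small (C₁ + C₂ + C₃ + C₄ + C₅ + 1) (by positivity) (ε / 2)
    (by positivity)
  obtain ⟨θ₂, hθ₂, J₂, h2⟩ := fck_use hFCK hd (ε / 2) (by positivity)
  refine ⟨min θ₁ θ₂, lt_min hθ₁ hθ₂, max J₁ J₂, ?_⟩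
  intro J hJ F L sb e he hOk
  have hJ1 : J₁ ≤ J := (le_max_left _ _).trans hJ
  have hJ2 : J₂ ≤ J := (le_max_right _ _).trans hJ
  have hlm : 0 ≤ lm J := by unfold lm; positivity
  have he1 : e ≤ θ₁ * lm J := he.trans (mul_le_mul_of_nonneg_right (min_le_left _ _) hlm)
  have he2 : e ≤ θ₂ * lm J := he.trans (mul_le_mul_of_nonneg_right (min_le_right _ _) hlm)
  have herr := h1 J hJ1 e he1
  have hq := F.hq
  have hR' : lm J - C₁ * er J e ≤ CH F.q F.r (fun w => (F.v₁ w, (F.O w, F.Z w))) :=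
    (hR J F L sb e hOk).1
  have hD' : CH F.q F.O (fun w => ((F.A w, F.B w), F.TO w, F.Z w)) ≤ C₂ * er J e :=
    hD J F L sb e hOk
  have hTO' : CH F.q F.TO F.Z - lm J ≤ C₃ * er J e := hTO J F L sb e hOk
  have hT' : F.y01 - CH F.q F.t₁ (fun w => (F.v01 w, (F.O w, F.r w), F.Z w)) ≤ C₄ * er J e :=
    hT J F L sb e hOk
  have hU' : lm J - CH F.q F.r (fun w => (F.v01 w, (F.t w, F.s w, F.c w), F.Z w)) ≤
    C₅ * er J e := hU J F L sb e hOk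
  have hee := le_er (J := J) hOk.e0
  -- `t₁` is uniform given `v01, t`
  have hct := hOk.ct
  have t1 : CH F.q (fun w => ((F.t₁ w, F.r w), F.tr w, F.ta w))
      (fun w => ((F.v₀ w, F.v₁ w, F.v₂ w), (F.t w, F.s w), F.Z w)) ≤
      CH F.q F.t₁ (fun w => ((F.v₀ w, F.v₁ w, F.v₂ w), (F.t w, F.s w), F.Z w)) + 3 * lm J := by
    have b1 := CH_subadd hq (fun w => (F.t₁ w, F.r w)) (fun w => (F.tr w, F.ta w))
      (fun w => ((F.v₀ w, F.v₁ w, F.v₂ w), (F.t w, F.s w), F.Z w))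
    have b2 := CH_subadd hq F.t₁ F.r
      (fun w => ((F.v₀ w, F.v₁ w, F.v₂ w), (F.t w, F.s w), F.Z w))
    have b3 := CH_subadd hq F.tr F.ta
      (fun w => ((F.v₀ w, F.v₁ w, F.v₂ w), (F.t w, F.s w), F.Z w))
    have b4 := time_le hq F.h1 F.hr
      (fun w => ((F.v₀ w, F.v₁ w, F.v₂ w), (F.t w, F.s w), F.Z w))
    have b5 := time_le hq F.h1 F.htr
      (fun w => ((F.v₀ w, F.v₁ w, F.v₂ w), (F.t w, F.s w), F.Z w))
    have b6 := time_le hq F.h1 F.hta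
      (fun w => ((F.v₀ w, F.v₁ w, F.v₂ w), (F.t w, F.s w), F.Z w))
    linarith
  have t2 : CH F.q F.t₁ (fun w => ((F.v₀ w, F.v₁ w, F.v₂ w), (F.t w, F.s w), F.Z w)) ≤
      CH F.q F.t₁ (fun w => (F.v01 w, F.t w, F.Z w)) := by
    refine CH_mono_cond hq ?_
    intro w w' _ _ hh
    simp only [Prod.mk.injEq, Cf.v01] at hh ⊢
    tauto
  -- FACT K
  have hK := h2 J hJ2 F F.t₁ F.ht₁ (by linarith)
  -- `S(FL) = H(B | O) - H(r | O)`
  have s1 : F.FL.S = CH F.q (fun w => rd (pos (2 ^ J) (F.u₁ w) (F.v₁ w) (F.r w)))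
      (fun w => ((F.O w, F.Z w), F.r w)) := rfl
  have s2 : CH F.q (fun w => (rd (pos (2 ^ J) (F.u₁ w) (F.v₁ w) (F.r w)), F.r w))
      (fun w => (F.O w, F.Z w)) = CH F.q F.r (fun w => (F.O w, F.Z w)) +
        CH F.q (fun w => rd (pos (2 ^ J) (F.u₁ w) (F.v₁ w) (F.r w)))
          (fun w => (F.r w, (F.O w, F.Z w))) := CH_chain hq _ _ _
  have s3 : CH F.q (fun w => rd (pos (2 ^ J) (F.u₁ w) (F.v₁ w) (F.r w)))
          (fun w => (F.r w, (F.O w, F.Z w))) =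
        CH F.q (fun w => rd (pos (2 ^ J) (F.u₁ w) (F.v₁ w) (F.r w)))
          (fun w => ((F.O w, F.Z w), F.r w)) := by
    refine CH_congr hq (fun _ _ _ _ h => (Prod.ext_iff.mp h).1)
      (fun _ _ _ _ h => (Prod.ext_iff.mp h).1) ?_ ?_ <;>
    · intro w w' _ _ hh
      simp only [Prod.mk.injEq] at hh ⊢
      tauto
  have s4 : CH F.q (fun w => (rd (pos (2 ^ J) (F.u₁ w) (F.v₁ w) (F.r w)), F.r w))
      (fun w => (F.O w, F.Z w)) = CH F.q F.B (fun w => (F.O w, F.Z w)) := by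
    refine CH_congr hq ?_ ?_ (fun _ _ _ _ h => h) (fun _ _ _ _ h => h) <;>
    · intro w w' _ _ hh
      simp only [Prod.mk.injEq, Cf.B, pp] at hh ⊢
      tauto
  have s5 : CH F.q F.r (fun w => (F.v₁ w, (F.O w, F.Z w))) ≤
      CH F.q F.r (fun w => (F.O w, F.Z w)) :=
    CH_mono_cond hq (fun w w' _ _ hh => (Prod.ext_iff.mp hh).2)
  -- `H(B, O) = H(A, B, O) - H(A | B O)`
  have s6 : CH F.q (fun w => (F.B w, F.O w)) F.Z = CH F.q F.O F.Z +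
      CH F.q F.B (fun w => (F.O w, F.Z w)) := CH_chain hq _ _ _
  have s7 : CH F.q (fun w => (F.A w, (F.B w, F.O w))) F.Z = CH F.q (fun w => (F.B w, F.O w)) F.Z +
      CH F.q F.A (fun w => ((F.B w, F.O w), F.Z w)) := CH_chain hq _ _ _
  have s8 : CH F.q (fun w => (F.A w, (F.B w, F.O w))) F.Z ≤
      CH F.q (fun w => (F.O w, F.TO w, (F.A w, F.B w))) F.Z := by
    refine CH_mono_left hq ?_
    intro w w' _ _ hh
    simp only [Prod.mk.injEq] at hh ⊢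
    tauto
  have s9 : CH F.q (fun w => (F.O w, F.TO w, (F.A w, F.B w))) F.Z =
      CH F.q (fun w => (F.TO w, (F.A w, F.B w))) F.Z +
        CH F.q F.O (fun w => ((F.TO w, (F.A w, F.B w)), F.Z w)) := CH_chain hq _ _ _
  have s10 : CH F.q F.O (fun w => ((F.TO w, (F.A w, F.B w)), F.Z w)) =
      CH F.q F.O (fun w => ((F.A w, F.B w), F.TO w, F.Z w)) := by
    refine CH_congr hq (fun _ _ _ _ h => (Prod.ext_iff.mp h).1)
      (fun _ _ _ _ h => (Prod.ext_iff.mp h).1) ?_ ?_ <;>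
    · intro w w' _ _ hh
      simp only [Prod.mk.injEq] at hh ⊢
      tauto
  have s11 := CH_subadd hq F.TO (fun w => (F.A w, F.B w)) F.Z
  -- `H(A | B O) ≥ H(A | v₁ r O)`
  have a1 : CH F.q F.A (fun w => ((F.v₁ w, F.r w, F.O w), F.Z w)) ≤
      CH F.q F.A (fun w => ((F.B w, F.O w), F.Z w)) := by
    refine CH_mono_cond hq ?_
    intro w w' hw hw' hh
    simp only [Prod.mk.injEq] at hh
    obtain ⟨⟨e1, e2, e3⟩, e4⟩ := hh
    have e5 : F.u₁ w = F.u₁ w' := F.hu₁ w w' hw hw' (Prod.ext e1 e4)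
    simp only [Prod.mk.injEq]
    refine ⟨⟨?_, e3⟩, e4⟩
    unfold Cf.B pp
    rw [e1, e2, e5]
  -- `H(v₀, A | W) = H(A | W) + H(v₀ | A, W)`
  have a2 : CH F.q (fun w => (F.v₀ w, F.A w)) (fun w => ((F.v₁ w, F.r w, F.O w), F.Z w)) =
      CH F.q F.A (fun w => ((F.v₁ w, F.r w, F.O w), F.Z w)) +
        CH F.q F.v₀ (fun w => (F.A w, ((F.v₁ w, F.r w, F.O w), F.Z w))) := CH_chain hq _ _ _
  have a3 : CH F.q F.v₀ (fun w => (F.A w, ((F.v₁ w, F.r w, F.O w), F.Z w))) ≤ ε / 2 * lm J := by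
    refine le_trans (CH_mono_cond hq ?_) hK
    intro w w' _ _ hh
    simp only [Prod.mk.injEq, Cf.A] at hh ⊢
    tauto
  have a4 : CH F.q (fun w => (F.t₁ w, F.v₀ w)) (fun w => ((F.v₁ w, F.r w, F.O w), F.Z w)) ≤
      CH F.q (fun w => (F.v₀ w, F.A w)) (fun w => ((F.v₁ w, F.r w, F.O w), F.Z w)) := by
    refine CH_mono_left hq ?_
    intro w w' _ _ hh
    simp only [Prod.mk.injEq] at hh
    obtain ⟨⟨e1, e2⟩, -⟩ := hh
    have e5 : F.t₁ w = F.t₁ w' := congrArg Prod.fst e2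
    simp only [Prod.mk.injEq]
    exact ⟨e5, e1⟩
  have a5 : CH F.q (fun w => (F.t₁ w, F.v₀ w)) (fun w => ((F.v₁ w, F.r w, F.O w), F.Z w)) =
      CH F.q F.v₀ (fun w => ((F.v₁ w, F.r w, F.O w), F.Z w)) +
        CH F.q F.t₁ (fun w => (F.v₀ w, ((F.v₁ w, F.r w, F.O w), F.Z w))) := CH_chain hq _ _ _
  have a6 : CH F.q F.t₁ (fun w => (F.v₀ w, ((F.v₁ w, F.r w, F.O w), F.Z w))) =
      CH F.q F.t₁ (fun w => (F.v01 w, (F.O w, F.r w), F.Z w)) := by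
    refine CH_congr hq (fun _ _ _ _ h => (Prod.ext_iff.mp h).1)
      (fun _ _ _ _ h => (Prod.ext_iff.mp h).1) ?_ ?_ <;>
    · intro w w' _ _ hh
      simp only [Prod.mk.injEq, Cf.v01] at hh ⊢
      tauto
  -- `H(v₀ | v₁ O r) ≥ et₁`
  have c1 : CH F.q (fun w => (F.v₀ w, F.r w)) (fun w => (F.v₁ w, F.O w, F.Z w)) =
      CH F.q F.r (fun w => (F.v₁ w, F.O w, F.Z w)) +
        CH F.q F.v₀ (fun w => (F.r w, (F.v₁ w, F.O w, F.Z w))) := CH_chain hq _ _ _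
  have c2 : CH F.q (fun w => (F.r w, F.v₀ w)) (fun w => (F.v₁ w, F.O w, F.Z w)) =
      CH F.q F.v₀ (fun w => (F.v₁ w, F.O w, F.Z w)) +
        CH F.q F.r (fun w => (F.v₀ w, (F.v₁ w, F.O w, F.Z w))) := CH_chain hq _ _ _
  have c3 : CH F.q (fun w => (F.v₀ w, F.r w)) (fun w => (F.v₁ w, F.O w, F.Z w)) =
      CH F.q (fun w => (F.r w, F.v₀ w)) (fun w => (F.v₁ w, F.O w, F.Z w)) := by
    refine CH_congr hq ?_ ?_ (fun _ _ _ _ h => h) (fun _ _ _ _ h => h) <;>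
    · intro w w' _ _ hh
      simp only [Prod.mk.injEq] at hh ⊢
      tauto
  have c4 : CH F.q F.v₀ (fun w => (F.r w, (F.v₁ w, F.O w, F.Z w))) =
      CH F.q F.v₀ (fun w => ((F.v₁ w, F.r w, F.O w), F.Z w)) := by
    refine CH_congr hq (fun _ _ _ _ h => (Prod.ext_iff.mp h).1)
      (fun _ _ _ _ h => (Prod.ext_iff.mp h).1) ?_ ?_ <;>
    · intro w w' _ _ hh
      simp only [Prod.mk.injEq] at hh ⊢
      tauto
  have c5 : CH F.q F.r (fun w => (F.v₁ w, F.O w, F.Z w)) ≤ lm J := time_le hq F.h1 F.hr _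
  have c6 : CH F.q F.r (fun w => (F.v01 w, (F.t w, F.s w, F.c w), F.Z w)) ≤
      CH F.q F.r (fun w => (F.v₀ w, (F.v₁ w, F.O w, F.Z w))) := by
    refine CH_mono_cond hq ?_
    intro w w' hw hw' hh
    simp only [Prod.mk.injEq, Cf.v01] at hh
    obtain ⟨⟨e1, e2⟩, ⟨e3, e4, e5⟩, e6⟩ := hh
    have e7 : F.u₀ w = F.u₀ w' := F.hu₀ w w' hw hw' (Prod.ext e1 e6)
    simp only [Prod.mk.injEq]
    refine ⟨e1, e2, ?_, e6⟩
    unfold Cf.O
    rw [e1, e2, e4, e5, e7]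
  change F.FL.S - (F.mh - F.xh - F.et₁ - F.y01) ≤ ε * lm J
  have herr' : C₁ * er J e + C₂ * er J e + C₃ * er J e + C₄ * er J e + C₅ * er J e + er J e ≤
      ε / 2 * lm J := by
    calc _ = (C₁ + C₂ + C₃ + C₄ + C₅ + 1) * er J e := by ring
      _ ≤ _ := herr
  have her : 0 ≤ er J e := er_nonneg hOk.e0
  rw [s1]
  unfold Cf.mh Cf.xh Cf.et₁
  linarith

end Pool.KTH
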